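import Pool.Agent.Helper72.LSr.S4

/-!
# Piece LR-S5c: `case2_D`, `case2_Y`
-/

namespace Pool.Agent.Helper12.LSr

open Finset
open scoped Classical
open Pool.Agent.Helper72.LSr

variable {V : Type} {j : ℕ} {G : SimpleGraph V} {S : Finset V} {k A B : ℕ}

theorem case2_D (h : CE V j G S k A (B + 1)) (hY : ∀ v ∈ S, Yv k A (B + 1) G S v ≤ 0) :
    ∀ v ∈ S, gS k A (B + 1) G S + 2 ≤ Dv k A (B + 1) G S v := by
  intro v hv
  by_contra hcon
  push Not at hcon
  have hD := all_D_pos h v hv
  have hcard : (S.erase v).card < S.card := card_erase_lt_of_mem hv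
  have hr := rS_erase G S k A (B + 1) hv
  have hg := gS_erase G S k A (B + 1) hv
  have hr0 := h.hr
  have h1 := Phi_nonneg (i := j + 2) (k := k) (A := A) (B := B + 1) (G := G) (S := S.erase v)
    (fun m => h.th2 _ m hcard) h.hk (by rw [hr]; linarith) (by rw [hg]; linarith)
  have h2 := Phi_erase G S k A (B + 1) (j + 1) hv
  have h3 := Yr_nonpos' (j := j) h.th1 h.hk h.hAB (hY v hv) (by linarith)
  have h4 := h.hP
  have h5 : Phi k A (B + 1) (j + 2) G (S.erase v)
      = Phi k A (B + 1) (j + 2) G S + Yr k A (B + 1) (j + 1) G S v := h2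
  linarith

/-- in the line `(A+1,B)`: `Y^+_v ≥ g + 1` if `X_v ≤ 1 + g` -/
theorem case2_Y (h : CE V j G S k A (B + 1)) (hY : ∀ v ∈ S, Yv k A (B + 1) G S v ≤ 0) :
    ∀ v ∈ S, Dv k A (B + 1) G S v ≤ MS k A (B + 1) S + 1 + gS k A (B + 1) G S →
      gS k A (B + 1) G S + 1 ≤ Yv k (A + 1) B G S v := by
  intro v hv hX
  have hDg := case2_D h hY v hv
  have hcard : (S.erase v).card < S.card := card_erase_lt_of_mem hv
  have hr := rS_erase G S k (A + 1) B hv
  have hg := gS_erase G S k (A + 1) B hv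
  have hDl := Dv_low G S k A B v
  have hYl := Yv_low G S k A B v
  have hMl := MS_low (S := S) k A B
  have hgl := gS_low G S k A B
  have hsum := rS_add_gS G S k (A + 1) B
  have hg0 := h.hg
  have h1 := Phi_nonneg (i := j + 2) (k := k) (A := A + 1) (B := B) (G := G) (S := S.erase v)
    (fun m => h.th2 _ m hcard) h.hk (by rw [hr]; linarith) (by rw [hg]; linarith)
  have h2 : Phi k (A + 1) B (j + 2) G (S.erase v)
      = Phi k (A + 1) B (j + 2) G S + Yr k (A + 1) B (j + 1) G S v :=
    Phi_erase G S k (A + 1) B (j + 1) hv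
  have h3 : Phi k A (B + 1) (j + 2) G S
      = Phi k (A + 1) B (j + 2) G S - es k A B (j + 1) * rS k (A + 1) B G S :=
    Phi_low G S k A B (j + 1)
  have hP := h.hP
  have hrg : rS k (A + 1) B G S = - gS k A (B + 1) G S := by linarith
  rw [hrg] at h3
  have hlam := es_nonneg k A B (j + 1)
  have hYr : 1 + es k A B (j + 1) * gS k A (B + 1) G S ≤ Yr k (A + 1) B (j + 1) G S v := by
    linarith
  have hYeq := Yr_eq G S k A B j v
  have e1 := gS_nb G S k A B v
  have e2 := MS_nb G S k A B v
  have e3 := rS_nb G S k A B v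
  have hYv := hY v hv
  by_cases hneg : 0 ≤ Yv k (A + 1) B G S v
  · have h4 := Phi_nonneg (i := j + 1) (G := G) (S := nb G S v) (fun m => h.th1 _ m) h.hk
      (k := k) (A := A) (B := B) (by rw [e3]; linarith) (by rw [e1]; exact hneg)
    by_contra hcon
    push Not at hcon
    have h5 : Yv k (A + 1) B G S v ≤ gS k A (B + 1) G S := by linarith
    have h6 := mul_le_mul_of_nonneg_left h5 hlam
    linarith
  · push Not at hneg
    exfalso
    have h4 := Phi_cheap (i := j + 1) (G := G) (S := nb G S v) (fun m => h.th1 _ m) h.hk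
      (k := k) (A := A) (B := B) (by rw [e1]; exact le_of_lt hneg) (by rw [e2]; linarith)
    rw [e1] at h4
    have h5 : 0 ≤ es k A B (j + 1) * gS k A (B + 1) G S := mul_nonneg hlam hg0
    linarith

end Pool.Agent.Helper12.LSr
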